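import Pool.Agent.H854.AS.Defs

/-!
# Homology with Hodge classes: definitions
-/

set_option autoImplicit false

open CategoryTheory AlgebraicGeometry

universe u v w

namespace Pool.Agent.H854.HG

open Pool.Agent.Y138.UC Pool.Agent.H854.AS

variable (k : Type u) [Field k]

/-- The data of a homology theory with cycle classes and special classes on the schemes over `k`.
For a field `k ⊆ ℂ` these are: `(H.g m).M X n`, the Borel-Moore homology
`H_{2 n + m}(X(ℂ), ℚ(-n))`; `C.M X n`, the group of cycles of dimension `n` on the complex scheme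
`X ⊗ ℂ` modulo rational equivalence, with rational coefficients; the cycle class map `cl`; and
`special X n`, the Hodge classes in `H_{2 n}(X(ℂ), ℚ(-n))`, that is, the morphisms from `ℚ(0)` to this
mixed Hodge structure. -/
structure HTheory (F : Type v) [Field F] where
  H : Sys.{u, v} k F
  C : Grp.{u, v} k F
  cl : ∀ (X : Sch k) (n : ℤ), C.M X n →ₗ[F] (H.g 0).M X n
  special : ∀ (X : Sch k) (n : ℤ), Set ((H.g 0).M X n)

variable {k} {F : Type v} [Field F]

/-- The class of a cycle. -/
def HTheory.cls (T : HTheory.{u, v} k F) {X : Sch k} {n : ℤ} (z : T.C.M X n) :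
    (T.H.g 0).M X n := T.cl X n z

/-- The homology and the Chow groups of the point: `H_{2 n + m}(-n)` vanishes for `2 n + m ≠ 0`, and
there are only cycles of dimension zero. -/
def HTheory.Point (T : HTheory.{u, v} k F) : Prop :=
  (∀ m n : ℤ, m + 2 * n ≠ 0 → Subsingleton ((T.H.g m).M (aff k k) n)) ∧
    ∀ n : ℤ, n ≠ 0 → Subsingleton (T.C.M (aff k k) n)

/-- The cycle class map is compatible with push-forward and pull-back. -/
def HTheory.CycleNat (T : HTheory.{u, v} k F) : Prop :=
  (∀ {Z X : Sch k} (i : Z ⟶ X) (hi : IsCl i) (n : ℤ), IsVariety X → ∀ x : T.C.M Z n,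
    T.cls (T.C.psh i hi x) = (T.H.g 0).psh i hi (T.cls x)) ∧
  ∀ {E B : Sch k} (f : E ⟶ B) (r : ℕ) (hf : IsFlatDim f r) (n n' : ℤ) (e : n' = n + r),
    IsVariety E → IsVariety B → ∀ x : T.C.M B n,
    T.cls (T.C.pll f hf e x) = (T.H.g 0).pll f hf e (T.cls x)

/-- Push-forward and pull-back preserve the special classes. -/
def HTheory.Keeps (T : HTheory.{u, v} k F) : Prop :=
  (∀ {Z X : Sch k} (i : Z ⟶ X) (hi : IsCl i) (n : ℤ), IsVariety X → ∀ x ∈ T.special Z n,
    (T.H.g 0).psh i hi x ∈ T.special X n) ∧
  ∀ {E B : Sch k} (f : E ⟶ B) (r : ℕ) (hf : IsFlatDim f r) (n n' : ℤ) (e : n' = n + r),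
    IsVariety E → IsVariety B → ∀ x ∈ T.special B n,
    (T.H.g 0).pll f hf e x ∈ T.special E n'

/-- The push-forward along the identity is the identity. -/
def HTheory.PushId (T : HTheory.{u, v} k F) : Prop :=
  ∀ (X : Sch k) (h : IsCl (𝟙 X)) (n : ℤ) (x : (T.H.g 0).M X n), (T.H.g 0).psh (𝟙 X) h x = x

/-- The properties of the theory that are used. -/
structure HTheory.IsValid (T : HTheory.{u, v} k F) : Prop where
  homology : T.H.IsHomology
  chow : T.C.IsGood
  chowSurj : T.C.RestrictionSurjective
  point : T.Point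
  cycle : T.CycleNat
  keeps : T.Keeps
  pushId : T.PushId

/-- The Hodge conjecture for `X` and the cycles of dimension `n`: every special class is the class of a
cycle. -/
def HTheory.Hodge (T : HTheory.{u, v} k F) (X : Sch k) (n : ℤ) : Prop :=
  ∀ x ∈ T.special X n, ∃ z : T.C.M X n, T.cls z = x

/-- The Hodge conjecture in all dimensions for all schemes over `k` with the property `S`. -/
def HTheory.HodgeFor (T : HTheory.{u, v} k F) (S : Sch k → Prop) : Prop :=
  ∀ X, S X → ∀ n, T.Hodge X n

/-- The special classes on `X` are images of special classes on `X'`, under maps of homology and cycle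
groups that are compatible with the cycle classes. -/
def HTheory.ComesFrom (T : HTheory.{u, v} k F) (X X' : Sch k) (n : ℤ) : Prop :=
  ∃ (a : T.C.M X' n → T.C.M X n) (b : (T.H.g 0).M X' n → (T.H.g 0).M X n),
    (∀ z, b (T.cls z) = T.cls (a z)) ∧ ∀ x ∈ T.special X n, ∃ x' ∈ T.special X' n, b x' = x

/-- The scheme `X` over the extension `K` of `k` as a scheme over `k`. -/
noncomputable def dn (k : Type u) {K : Type u} [Field k] [Field K] [Algebra k K] (X : Sch K) :
    Sch k := Over.mk (X.hom ≫ Spec.map (CommRingCat.ofHom (algebraMap k K)))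

/-- The theory `T'` over the finite extension `K` of `k` belongs to the theory `T` over `k`. For an
embedding `σ` of `K` in `ℂ` and a scheme `X` over `K` the complex scheme `dn k X ⊗ ℂ` is the disjoint
union of `X ⊗ ℂ` and of the conjugates of `X` for the other embeddings; `cyc` and `res` are the
restrictions of cycles and homology to this component, `sec` is the inclusion of its homology. -/
structure HInduced {k K : Type u} [Field k] [Field K] [Algebra k K] {F : Type v} [Field F]
    (T : HTheory.{u, v} k F) (T' : HTheory.{u, v} K F) where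
  cyc : ∀ (X : Sch K) (n : ℤ), T.C.M (dn k X) n → T'.C.M X n
  res : ∀ (X : Sch K) (n : ℤ), (T.H.g 0).M (dn k X) n → (T'.H.g 0).M X n
  sec : ∀ (X : Sch K) (n : ℤ), (T'.H.g 0).M X n → (T.H.g 0).M (dn k X) n
  res_sec : ∀ (X : Sch K) (n : ℤ) (x : (T'.H.g 0).M X n), res X n (sec X n x) = x
  res_cls : ∀ (X : Sch K) (n : ℤ) (z : T.C.M (dn k X) n), res X n (T.cls z) = T'.cls (cyc X n z)
  sec_special : ∀ (X : Sch K) (n : ℤ), ∀ x ∈ T'.special X n, sec X n x ∈ T.special (dn k X) n

end Pool.Agent.H854.HG
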