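import Pool.Agent.H854.HG.Defs
import Pool.Agent.H854.SQ.Clop
import Pool.Agent.H854.AS.State

/-!
# The Hodge conjecture can be transferred
-/

set_option autoImplicit false

open CategoryTheory AlgebraicGeometry

universe u v w

namespace Pool.Agent.H854.HG

open Pool.Agent.Y138.UC Pool.Agent.H854.AS Pool.Agent.H854.SQ

variable {k : Type u} [Field k] {F : Type v} [Field F] {T : HTheory.{u, v} k F}

theorem HTheory.IsValid.cl_push (hT : T.IsValid) {Z X : Sch k} (i : Z ⟶ X) (hi : IsCl i) (n : ℤ)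
    (vX : IsVariety X) (x : T.C.M Z n) :
    T.cl X n (T.C.push i hi n x) = (T.H.g 0).push i hi n (T.cl Z n x) :=
  hT.cycle.1 i hi n vX x

theorem HTheory.IsValid.cl_pull (hT : T.IsValid) {E B : Sch k} (f : E ⟶ B) (r : ℕ)
    (hf : IsFlatDim f r) (n n' : ℤ) (e : n' = n + r) (vE : IsVariety E) (vB : IsVariety B)
    (x : T.C.M B n) :
    T.cl E n' (T.C.pull f r hf n n' e x) = (T.H.g 0).pull f r hf n n' e (T.cl B n x) :=
  hT.cycle.2 f r hf n n' e vE vB x

theorem HTheory.IsValid.sp_push (hT : T.IsValid) {Z X : Sch k} (i : Z ⟶ X) (hi : IsCl i) (n : ℤ)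
    (vX : IsVariety X) (x : (T.H.g 0).M Z n) (hx : x ∈ T.special Z n) :
    (T.H.g 0).push i hi n x ∈ T.special X n :=
  hT.keeps.1 i hi n vX x hx

theorem HTheory.IsValid.sp_pull (hT : T.IsValid) {E B : Sch k} (f : E ⟶ B) (r : ℕ)
    (hf : IsFlatDim f r) (n n' : ℤ) (e : n' = n + r) (vE : IsVariety E) (vB : IsVariety B)
    (x : (T.H.g 0).M B n) (hx : x ∈ T.special B n) :
    (T.H.g 0).pull f r hf n n' e x ∈ T.special E n' :=
  hT.keeps.2 f r hf n n' e vE vB x hx

/-- The cycles on affine space. -/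
theorem HTheory.IsValid.space_chow (hT : T.IsValid) (N : ℕ) (n : ℤ) (h : n ≠ N) :
    Subsingleton (T.C.M (aff k (MvPolynomial (Fin N) k)) n) := by
  have h1 := hT.point.2 (n - N) (by omega)
  exact (hT.chow.bundleSurj (triv k N) N (.of_bun (isAffineBundle_triv k N)) (n - N) n
    (by ring) (isVariety_aff _) (isVariety_aff _) (isAffineBundle_triv k N)).subsingleton

/-- The Hodge conjecture can be transferred. -/
theorem transfers_hodge (hT : T.IsValid) : Transfers T.Hodge where
  ofOpen := by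
    intro D E Z j hj f d hf b hb e0 vD vE vZ n n' e h z hz
    obtain ⟨w, hw⟩ := h _ (hT.sp_pull f d hf n n' e vE vZ z hz)
    change T.cl _ _ _ = _ at hw
    obtain ⟨w', hw'⟩ := hT.chow.bundleSurj b d (.of_bun hb) n n' e vD vZ hb
      (T.C.pull j 0 (.of_open hj) n' n' (by simp) w)
    refine ⟨w', ?_⟩
    change T.cl _ _ _ = _
    apply hT.homology.bundleInj 0 b d (.of_bun hb) n n' e vD vZ hb
    rw [← hT.cl_pull b d (.of_bun hb) n n' e vD vZ, hw',
      hT.cl_pull j 0 (.of_open hj) n' n' (by simp) vD vE, hw]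
    exact ((hT.homology.good 0).pullComp j f b 0 d d (.of_open hj) hf (.of_bun hb) n n' n' e
      (by simp) e vD vE vZ e0 z).symm
  ofConfig := by
    intro Z S B C Y V C' C0 B' i j iY jY π πC πV i' j0 b0 a b d r s c N hS n n' e hn h x hx
    have hs : Subsingleton (T.C.M S n) := by
      rw [hS]
      exact hT.space_chow N n hn
    obtain ⟨w, hw⟩ := h _ (hT.sp_push iY c.hY.1 n' c.vY _ (hT.sp_push i' c.hC.1 n' c.vC x hx))
    change T.cl _ _ _ = _ at hw
    obtain ⟨w', rfl⟩ : ∃ w' : T.C.M C' n',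
        T.C.push iY c.hY.1 n' (T.C.push i' c.hC.1 n' w') = w := by
      apply c.surj_of hT.chow n n' e hs
      obtain ⟨β, hβ⟩ := c.V_surj hT.chow n n' e (T.C.pull jY 0 c.fjY n' n' (by simp) w)
      obtain ⟨σ, hσ⟩ := hT.chowSurj i j c.hS c.fj n c.vS β
      rw [← hβ, ← hσ, Subsingleton.elim σ 0, map_zero, map_zero]
    refine ⟨w', ?_⟩
    change T.cl _ _ _ = _
    rw [hT.cl_push iY c.hY.1 n' c.vY, hT.cl_push i' c.hC.1 n' c.vC] at hw
    exact sub_eq_zero.1 (c.inj hT.homology 0 n n' e _ (by rw [map_sub, map_sub, hw, sub_self]))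
  ofClopen := by
    intro Z X i hc ho vZ vX n h x hx
    obtain ⟨w, hw⟩ := h _ (hT.sp_push i hc n vX x hx)
    change T.cl X n w = _ at hw
    refine ⟨T.C.pull i 0 (.of_open ho) n n (by simp) w, ?_⟩
    change T.cl Z n _ = _
    rw [hT.cl_pull i 0 (.of_open ho) n n (by simp) vZ vX, hw,
      pull_push (hT.homology.good 0) i hc ho vZ vX]
    exact hT.pushId Z (isCl_id Z) n x

/-- From the coverings `P(y) = g(x)` with cubic polynomials `g` to all admissible schemes. -/
theorem Transfers.cubic {Q : Sch k → ℤ → Prop} (hQ : Transfers Q) {P : Polynomial k}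
    (hP : HasSimpleRoots P)
    (h : ∀ (N r : ℕ) (q : Fin (r + 1) → MvPolynomial (Fin N) k), (∀ i, (q i).totalDegree ≤ 2) →
      ∀ d, Q (cover P (AS.cubic q)) d) (X : Sch k) (hX : IsAdmissible X) (d : ℤ) : Q X d := by
  obtain ⟨vX, E, f, r, hf, hE, vE⟩ := hX
  obtain ⟨B, _, _, hB, ⟨eB⟩⟩ := exists_aff_iso E vE
  refine hQ.bundle hf vE vX d (d + r) rfl ?_
  refine hQ.iso eB (isVariety_aff _) vE _ ?_
  obtain ⟨N, m, q, hN, hq, ⟨eq⟩⟩ := exists_presentation k B ((d + r).toNat + 1)
  refine hQ.iso (affIso eq) (isVariety_aff _) (isVariety_aff _) _ ?_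
  have hn : d + r ≠ N := by
    have := Int.self_le_toNat (d + r)
    omega
  refine hQ.zeros q hP _ hn ?_
  have h1 : Algebra.FiniteType k (CovQ P q) := finiteType_cov P hP.1 hP.pos _
  have h2 : IsVariety (cover P (AS.cubic q)) :=
    isVariety_aff _ (h := finiteType_cov P hP.1 hP.pos _)
  exact hQ.iso (coverIso q P).symm h2 (isVariety_aff _) _ (h N m q hq _)

section Induced

variable {K : Type u} [Field K] [Algebra k K] {T' : HTheory.{u, v} K F}

/-- The Hodge conjecture for a scheme over `K` follows from that for the scheme over `k`. -/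
theorem HInduced.hodge (I : HInduced T T') (X : Sch K) (n : ℤ) (h : T.Hodge (dn k X) n) :
    T'.Hodge X n := by
  intro x hx
  obtain ⟨z, hz⟩ := h _ (I.sec_special X n x hx)
  exact ⟨I.cyc X n z, by rw [← I.res_cls, hz, I.res_sec]⟩

theorem isVariety_dn [hK : Module.Finite k K] {X : Sch K} (hX : IsVariety X) :
    IsVariety (dn k X) := by
  obtain ⟨h1, h2, h3⟩ := hX
  have h4 : LocallyOfFiniteType (Spec.map (CommRingCat.ofHom (algebraMap k K))) := by
    rw [HasRingHomProperty.Spec_iff (P := @LocallyOfFiniteType)]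
    exact (RingHom.finiteType_algebraMap).2 inferInstance
  refine ⟨?_, ?_, ?_⟩
  · change IsSeparated (X.hom ≫ _)
    infer_instance
  · change LocallyOfFiniteType (X.hom ≫ _)
    infer_instance
  · change QuasiCompact (X.hom ≫ _)
    infer_instance

theorem isAdmissible_dn [Module.Finite k K] {X : Sch K} (hX : IsAdmissible X) :
    IsAdmissible (dn k X) := by
  obtain ⟨vX, E, f, r, hf, hE, vE⟩ := hX
  exact ⟨isVariety_dn vX, dn k E, Over.homMk f.left (by
    change f.left ≫ X.hom ≫ _ = E.hom ≫ _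
    rw [← Category.assoc, Over.w f]), r, hf, hE, isVariety_dn vE⟩

end Induced

end Pool.Agent.H854.HG
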